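import Pool.Agent.H12R3.VR.Stmts

set_option autoImplicit false

namespace Pool.Agent.H915R3.VRInvAut

open H12VR

theorem ax_inv (P : Fin 6 → ℝ) (hd : dt P ≠ 0) (x y : ℝ) :
    ax (inv P) (ax P x y) (ay P x y) = x := by
  have e : ∀ u v : ℝ, ax (inv P) u v =
      P 4 / dt P * u + -P 1 / dt P * v + (P 1 * P 5 - P 4 * P 2) / dt P := fun _ _ => rfl
  rw [e, ax, ay]
  have h : (P 0 * P 4 - P 1 * P 3) = dt P := rfl
  have h2 : P 4 / dt P * (P 0 * x + P 1 * y + P 2) + -P 1 / dt P * (P 3 * x + P 4 * y + P 5) +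
      (P 1 * P 5 - P 4 * P 2) / dt P = x * ((P 0 * P 4 - P 1 * P 3) / dt P) := by ring
  rw [h2, h, div_self hd, mul_one]

theorem ay_inv (P : Fin 6 → ℝ) (hd : dt P ≠ 0) (x y : ℝ) :
    ay (inv P) (ax P x y) (ay P x y) = y := by
  have e : ∀ u v : ℝ, ay (inv P) u v =
      -P 3 / dt P * u + P 0 / dt P * v + (P 3 * P 2 - P 0 * P 5) / dt P := fun _ _ => rfl
  rw [e, ax, ay]
  have h : (P 0 * P 4 - P 1 * P 3) = dt P := rfl
  have h2 : -P 3 / dt P * (P 0 * x + P 1 * y + P 2) + P 0 / dt P * (P 3 * x + P 4 * y + P 5) +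
      (P 3 * P 2 - P 0 * P 5) / dt P = y * ((P 0 * P 4 - P 1 * P 3) / dt P) := by ring
  rw [h2, h, div_self hd, mul_one]

theorem dt_inv (P : Fin 6 → ℝ) (hd : dt P ≠ 0) : dt (inv P) ≠ 0 := by
  have e : dt (inv P) = P 4 / dt P * (P 0 / dt P) - -P 1 / dt P * (-P 3 / dt P) := rfl
  have h : (P 0 * P 4 - P 1 * P 3) = dt P := rfl
  have h2 : dt (inv P) = (P 0 * P 4 - P 1 * P 3) / dt P / dt P := by rw [e]; ring
  rw [h2, h, div_self hd]
  exact one_div_ne_zero hd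

theorem t : TaskInvAut := by
  intro f P hA
  obtain ⟨hd, hf, hs⟩ := hA
  have key : ∀ x, ax (inv P) (ax P x (f x)) (f (ax P x (f x))) = x := by
    intro x
    rw [hf]
    exact ax_inv P hd x (f x)
  refine ⟨⟨dt_inv P hd, ?_, ?_⟩, key⟩
  · intro y
    obtain ⟨x, rfl⟩ := hs y
    simp only
    rw [key, hf]
    exact (ay_inv P hd x (f x)).symm
  · intro x
    exact ⟨ax P x (f x), key x⟩

end Pool.Agent.H915R3.VRInvAut
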